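import Pool.Agent.Helper87.VM.Lib2

/-!
# GALA: a transposition of two roots of `X^(m+2) + αX + β`
-/

set_option autoImplicit false

namespace Pool.Agent.Helper87.VM

open Polynomial

/-- complete homogeneous polynomial in two variables -/
def gala_h {A : Type} [CommRing A] (x y : A) : ℕ → A
  | 0 => 1
  | n + 1 => x ^ (n + 1) + y * gala_h x y n

theorem gala_h_succ {A : Type} [CommRing A] (x y : A) (n : ℕ) :
    gala_h x y (n + 1) = x ^ (n + 1) + y * gala_h x y n := rfl

theorem gala_h_succ' {A : Type} [CommRing A] (x y : A) (n : ℕ) :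
    gala_h x y (n + 1) = y ^ (n + 1) + x * gala_h x y n := by
  induction n with
  | zero =>
    rw [gala_h_succ]
    show x ^ 1 + y * 1 = y ^ 1 + x * 1
    ring
  | succ n ih =>
    rw [gala_h_succ]
    have e := gala_h_succ x y n
    linear_combination y * ih - x * e

theorem gala_h_symm {A : Type} [CommRing A] (x y : A) (n : ℕ) : gala_h y x n = gala_h x y n := by
  induction n with
  | zero => rfl
  | succ n ih => rw [gala_h_succ, gala_h_succ' x y n, ih]

theorem gala_h_self {A : Type} [CommRing A] (x : A) (n : ℕ) :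
    gala_h x x n = ((n + 1 : ℕ) : A) * x ^ n := by
  induction n with
  | zero =>
    show (1 : A) = _
    rw [pow_zero, zero_add, Nat.cast_one, mul_one]
  | succ n ih =>
    rw [gala_h_succ, ih]
    push_cast
    ring

theorem gala_h_map {A B : Type} [CommRing A] [CommRing B] (f : A →+* B) (x y : A) (n : ℕ) :
    f (gala_h x y n) = gala_h (f x) (f y) n := by
  induction n with
  | zero => exact map_one f
  | succ n ih => rw [gala_h_succ, gala_h_succ, map_add, map_mul, map_pow, ih]

/-- the trinomial with roots `x` and `y` -/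
noncomputable def gala_F {A : Type} [CommRing A] (m : ℕ) (x y : A) : Polynomial A :=
  X ^ (m + 2) + C (-gala_h x y (m + 1)) * X + C (x * y * gala_h x y m)

theorem gala_F_symm {A : Type} [CommRing A] (m : ℕ) (x y : A) : gala_F m y x = gala_F m x y := by
  unfold gala_F
  rw [gala_h_symm x y, gala_h_symm x y, mul_comm y x]

theorem gala_F_map {A B : Type} [CommRing A] [CommRing B] (f : A →+* B) (m : ℕ) (x y : A) :
    (gala_F m x y).map f = gala_F m (f x) (f y) := by
  unfold gala_F
  rw [Polynomial.map_add, Polynomial.map_add, Polynomial.map_pow, Polynomial.map_mul,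
    Polynomial.map_X, Polynomial.map_C, Polynomial.map_C, map_neg, map_mul, map_mul, gala_h_map,
    gala_h_map, ← C_mul, map_mul f x y]

theorem gala_F_eval {A : Type} [CommRing A] (m : ℕ) (x y : A) : (gala_F m x y).eval x = 0 := by
  unfold gala_F
  rw [eval_add, eval_add, eval_pow, eval_mul, eval_C, eval_C, eval_X, gala_h_succ]
  ring

theorem gala_F_monic {A : Type} [CommRing A] [Nontrivial A] (m : ℕ) (x y : A) :
    (gala_F m x y).Monic := by
  unfold gala_F
  rw [add_assoc]
  apply monic_X_pow_add
  refine lt_of_le_of_lt degree_linear_le ?_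
  exact_mod_cast (by omega : 1 < m + 2)

theorem gala_F_natDegree {A : Type} [CommRing A] [Nontrivial A] (m : ℕ) (x y : A) :
    (gala_F m x y).natDegree = m + 2 := by
  unfold gala_F
  rw [add_assoc, natDegree_add_eq_left_of_natDegree_lt]
  · exact natDegree_X_pow _
  · rw [natDegree_X_pow]
    exact lt_of_le_of_lt natDegree_linear_le (by omega)

theorem gala_factor {A : Type} [CommRing A] [IsDomain A] (m : ℕ) (x y : A) (hxy : x ≠ y) :
    ∃ g : Polynomial A, gala_F m x y = (X - C x) * (X - C y) * g := by
  obtain ⟨q, hq⟩ := dvd_iff_isRoot.2 (gala_F_eval m x y : (gala_F m x y).IsRoot x)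
  have h1 : (gala_F m x y).eval y = 0 := by
    rw [← gala_F_symm]
    exact gala_F_eval m y x
  rw [hq, eval_mul, eval_sub, eval_X, eval_C] at h1
  have h2 : q.eval y = 0 := by
    rcases mul_eq_zero.1 h1 with h | h
    · exact absurd (sub_eq_zero.1 h).symm hxy
    · exact h
  obtain ⟨g, hg⟩ := dvd_iff_isRoot.2 (h2 : q.IsRoot y)
  exact ⟨g, by rw [hq, hg, mul_assoc]⟩

/-- the reduction has simple roots -/
theorem gala_simple {E : Type} [Field E] [CharZero E] (m : ℕ) (s : E) (hs : s ≠ 0)
    (g : Polynomial E) (hg : gala_F m s s = (X - C s) * (X - C s) * g) (z : E)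
    (hz : g.eval z = 0) : (derivative g).eval z ≠ 0 := by
  have hF : gala_F m s s = X ^ (m + 2) + C (-(((m + 2 : ℕ) : E) * s ^ (m + 1))) * X
      + C (((m + 1 : ℕ) : E) * s ^ (m + 2)) := by
    unfold gala_F
    rw [gala_h_self, gala_h_self]
    congr 2
    ring
  have hF1 : derivative (gala_F m s s) = C (((m + 2 : ℕ) : E)) * X ^ (m + 1)
      - C (((m + 2 : ℕ) : E) * s ^ (m + 1)) := by
    rw [hF, derivative_add, derivative_add, derivative_C, derivative_X_pow, derivative_C_mul,
      derivative_X, C_neg, mul_one, add_zero]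
    show C (((m + 2 : ℕ) : E)) * X ^ (m + 1) + -C (((m + 2 : ℕ) : E) * s ^ (m + 1)) = _
    ring
  have hF2 : derivative (derivative (gala_F m s s)) =
      C (((m + 2 : ℕ) : E)) * (C (((m + 1 : ℕ) : E)) * X ^ m) := by
    rw [hF1, derivative_sub, derivative_C, sub_zero, derivative_C_mul, derivative_X_pow]
    rfl
  have hG1 : derivative (gala_F m s s) = C 2 * (X - C s) * g + (X - C s) * (X - C s) * derivative g := by
    rw [hg, derivative_mul, derivative_mul, derivative_sub, derivative_X, derivative_C]
    have : (C 2 : Polynomial E) = 1 + 1 := by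
      rw [← C_1, ← C_add]
      norm_num
    rw [this]
    ring
  have hG2 : (derivative (derivative (gala_F m s s))).eval s = 2 * g.eval s := by
    rw [hG1, derivative_add, derivative_mul, derivative_mul, derivative_mul, derivative_mul,
      derivative_sub, derivative_X, derivative_C, derivative_C]
    simp only [eval_add, eval_mul, eval_sub, eval_X, eval_C, eval_one, eval_zero]
    ring
  have hgs : g.eval s ≠ 0 := by
    intro h0
    rw [hF2, h0, mul_zero] at hG2
    simp only [eval_mul, eval_C, eval_pow, eval_X] at hG2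
    have h2 : ((m + 2 : ℕ) : E) ≠ 0 := Nat.cast_ne_zero.2 (by omega)
    have h1 : ((m + 1 : ℕ) : E) ≠ 0 := Nat.cast_ne_zero.2 (by omega)
    exact (mul_ne_zero h2 (mul_ne_zero h1 (pow_ne_zero _ hs))) hG2
  intro hd
  have h1 : (derivative (gala_F m s s)).eval z = 0 := by
    rw [hG1]
    simp only [eval_add, eval_mul, hz, hd, mul_zero, add_zero]
  have h0 : (gala_F m s s).eval z = 0 := by
    rw [hg]
    simp only [eval_mul, hz, mul_zero]
  rw [hF1] at h1
  rw [hF] at h0
  simp only [eval_add, eval_sub, eval_mul, eval_C, eval_pow, eval_X] at h1 h0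
  have h2 : ((m + 2 : ℕ) : E) ≠ 0 := Nat.cast_ne_zero.2 (by omega)
  have h1' : ((m + 1 : ℕ) : E) ≠ 0 := Nat.cast_ne_zero.2 (by omega)
  have h3 : z ^ (m + 1) = s ^ (m + 1) := by
    have h4 : ((m + 2 : ℕ) : E) * (z ^ (m + 1) - s ^ (m + 1)) = 0 := by
      rw [mul_sub]
      exact h1
    rcases mul_eq_zero.1 h4 with h | h
    · exact absurd h h2
    · exact sub_eq_zero.1 h
  have h5 : ((m + 1 : ℕ) : E) * s ^ (m + 1) * (s - z) = 0 := by
    rw [← h0, pow_succ z (m + 1), h3]
    push_cast
    ring
  rcases mul_eq_zero.1 h5 with h | h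
  · exact (mul_ne_zero h1' (pow_ne_zero _ hs)) h
  · have : z = s := (sub_eq_zero.1 h).symm
    rw [this] at hz
    exact hgs hz

/-- a monic polynomial with simple roots over an algebraically closed field -/
theorem gala_split {E : Type} [Field E] [IsAlgClosed E] (n : ℕ) (g : Polynomial E)
    (hm : g.Monic) (hd : g.natDegree = n)
    (hs : ∀ z, g.eval z = 0 → (derivative g).eval z ≠ 0) :
    ∃ a : Fin n → E, Function.Injective a ∧ g = ∏ i, (X - C (a i)) := by
  classical
  have hsp : Splits g := IsAlgClosed.splits g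
  have h1 := hsp.eq_prod_roots_of_monic hm
  have hnd : g.roots.Nodup := by
    rw [Multiset.nodup_iff_count_le_one]
    intro z
    rw [count_roots]
    by_contra hlt
    rw [not_le, one_lt_rootMultiplicity_iff_isRoot hm.ne_zero] at hlt
    exact hs z hlt.1 hlt.2
  have hcard : g.roots.card = n := by
    rw [← hd]
    exact (splits_iff_card_roots.1 hsp)
  have hc : g.roots.toFinset.card = n := by
    rw [Multiset.toFinset_card_of_nodup hnd, hcard]
  let e : Fin n ≃ g.roots.toFinset := (g.roots.toFinset.equivFinOfCardEq hc).symm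
  refine ⟨fun i => (e i : E), ?_, ?_⟩
  · intro i j hij
    exact e.injective (Subtype.ext hij)
  · have h2 : ∏ i, (X - C ((e i : E))) = ∏ z : g.roots.toFinset, (X - C (z : E)) :=
      Fintype.prod_equiv e _ _ (fun _ => rfl)
    rw [h2]
    have h3 : ∏ z : g.roots.toFinset, (X - C (z : E)) = ∏ z ∈ g.roots.toFinset, (X - C z) :=
      Finset.prod_coe_sort g.roots.toFinset (fun z => X - C z)
    rw [h3]
    conv_lhs => rw [h1]
    rw [Finset.prod, Multiset.toFinset_val, Multiset.dedup_eq_self.2 hnd]

section

variable {E : Type} [Field E] [Algebra ℂ E]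

theorem gala_coeff (s : E) (Q : MvPolynomial (Fin 2) ℂ) (j : ℕ) :
    PowerSeries.coeff j (MvPolynomial.aeval ![PowerSeries.C s, (PowerSeries.X : PowerSeries E)] Q) =
      aeval s (∑ d ∈ Q.support.filter (fun d => d 1 = j), monomial (d 0) (Q.coeff d)) := by
  rw [MvPolynomial.aeval_def, MvPolynomial.eval₂_eq', map_sum, map_sum, Finset.sum_filter]
  refine Finset.sum_congr rfl ?_
  intro d _
  rw [Fin.prod_univ_two]
  show PowerSeries.coeff j (algebraMap ℂ (PowerSeries E) (Q.coeff d) *
    ((PowerSeries.C s) ^ (d 0) * (PowerSeries.X : PowerSeries E) ^ (d 1))) = _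
  have h1 : algebraMap ℂ (PowerSeries E) (Q.coeff d) = PowerSeries.C (algebraMap ℂ E (Q.coeff d)) :=
    PowerSeries.algebraMap_apply
  rw [h1, ← map_pow, ← mul_assoc, ← map_mul, PowerSeries.coeff_C_mul, PowerSeries.coeff_X_pow]
  by_cases h : d 1 = j
  · rw [if_pos h.symm, if_pos h, mul_one, aeval_monomial]
  · rw [if_neg (fun h' => h h'.symm), if_neg h, mul_zero]

theorem gala_zero (s : E) (hs : Transcendental ℂ s) (Q : MvPolynomial (Fin 2) ℂ)
    (hQ : MvPolynomial.aeval ![PowerSeries.C s, (PowerSeries.X : PowerSeries E)] Q = 0) : Q = 0 := by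
  classical
  ext d
  rw [MvPolynomial.coeff_zero]
  by_contra hne
  have h1 := gala_coeff s Q (d 1)
  rw [hQ, map_zero] at h1
  have h2 : (∑ d' ∈ Q.support.filter (fun d' => d' 1 = d 1), monomial (d' 0) (Q.coeff d')) = 0 := by
    by_contra h3
    exact hs ⟨_, h3, h1.symm⟩
  have h3 := congrArg (fun p => coeff p (d 0)) h2
  simp only [finsetSum_coeff, coeff_monomial, coeff_zero] at h3
  rw [Finset.sum_eq_single d] at h3
  · rw [if_pos rfl] at h3
    exact hne h3
  · intro d' hd' hne'
    rw [if_neg]
    intro h0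
    apply hne'
    ext i
    fin_cases i
    · exact h0
    · exact (Finset.mem_filter.1 hd').2
  · intro hd
    exfalso
    apply hd
    rw [Finset.mem_filter]
    exact ⟨MvPolynomial.mem_support_iff.2 hne, rfl⟩

theorem gala_indep (s : E) (hs : Transcendental ℂ s) :
    AlgebraicIndependent ℂ ![PowerSeries.C s + (PowerSeries.X : PowerSeries E),
      PowerSeries.C s - PowerSeries.X] := by
  rw [algebraicIndependent_iff]
  intro P hP
  let Q : MvPolynomial (Fin 2) ℂ :=
    MvPolynomial.aeval ![MvPolynomial.X 0 + MvPolynomial.X 1, MvPolynomial.X 0 - MvPolynomial.X 1] P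
  have hcomp : (MvPolynomial.aeval ![PowerSeries.C s, (PowerSeries.X : PowerSeries E)]).comp
      (MvPolynomial.aeval ![(MvPolynomial.X 0 + MvPolynomial.X 1 : MvPolynomial (Fin 2) ℂ),
        MvPolynomial.X 0 - MvPolynomial.X 1]) =
      MvPolynomial.aeval ![PowerSeries.C s + (PowerSeries.X : PowerSeries E),
        PowerSeries.C s - PowerSeries.X] := by
    apply MvPolynomial.algHom_ext
    intro i
    rw [AlgHom.comp_apply, MvPolynomial.aeval_X, MvPolynomial.aeval_X]
    fin_cases i
    · show MvPolynomial.aeval _ (MvPolynomial.X 0 + MvPolynomial.X 1) = _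
      rw [map_add, MvPolynomial.aeval_X, MvPolynomial.aeval_X]
      rfl
    · show MvPolynomial.aeval _ (MvPolynomial.X 0 - MvPolynomial.X 1) = _
      rw [map_sub, MvPolynomial.aeval_X, MvPolynomial.aeval_X]
      rfl
  have hQ : Q = 0 := by
    apply gala_zero s hs
    have h1 := congrArg (fun f => f P) hcomp
    simp only [AlgHom.comp_apply] at h1
    rw [hP] at h1
    exact h1
  have hcomp2 : (MvPolynomial.aeval
      ![(MvPolynomial.C (1 / 2 : ℂ) * (MvPolynomial.X 0 + MvPolynomial.X 1) : MvPolynomial (Fin 2) ℂ),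
        MvPolynomial.C (1 / 2 : ℂ) * (MvPolynomial.X 0 - MvPolynomial.X 1)]).comp
      (MvPolynomial.aeval ![(MvPolynomial.X 0 + MvPolynomial.X 1 : MvPolynomial (Fin 2) ℂ),
        MvPolynomial.X 0 - MvPolynomial.X 1]) = AlgHom.id ℂ (MvPolynomial (Fin 2) ℂ) := by
    apply MvPolynomial.algHom_ext
    intro i
    rw [AlgHom.comp_apply, MvPolynomial.aeval_X, AlgHom.id_apply]
    have hC : (MvPolynomial.C (1 / 2 : ℂ) : MvPolynomial (Fin 2) ℂ) * 2 = 1 := by
      have : (2 : MvPolynomial (Fin 2) ℂ) = MvPolynomial.C 2 := (map_ofNat MvPolynomial.C 2).symm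
      rw [this, ← map_mul, ← map_one MvPolynomial.C]
      norm_num
    fin_cases i
    · show MvPolynomial.aeval _ (MvPolynomial.X 0 + MvPolynomial.X 1) = MvPolynomial.X 0
      rw [map_add, MvPolynomial.aeval_X, MvPolynomial.aeval_X]
      show MvPolynomial.C (1 / 2 : ℂ) * (MvPolynomial.X 0 + MvPolynomial.X 1) +
        MvPolynomial.C (1 / 2 : ℂ) * (MvPolynomial.X 0 - MvPolynomial.X 1) = MvPolynomial.X 0
      linear_combination (MvPolynomial.X 0 : MvPolynomial (Fin 2) ℂ) * hC
    · show MvPolynomial.aeval _ (MvPolynomial.X 0 - MvPolynomial.X 1) = MvPolynomial.X 1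
      rw [map_sub, MvPolynomial.aeval_X, MvPolynomial.aeval_X]
      show MvPolynomial.C (1 / 2 : ℂ) * (MvPolynomial.X 0 + MvPolynomial.X 1) -
        MvPolynomial.C (1 / 2 : ℂ) * (MvPolynomial.X 0 - MvPolynomial.X 1) = MvPolynomial.X 1
      linear_combination (MvPolynomial.X 1 : MvPolynomial (Fin 2) ℂ) * hC
  have h2 := congrArg (fun f => f P) hcomp2
  simp only [AlgHom.comp_apply, AlgHom.id_apply] at h2
  rw [← h2]
  show MvPolynomial.aeval _ Q = 0
  rw [hQ, map_zero]

end

/-- the substitution `X ↦ -X` -/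
noncomputable def gala_iota (E : Type) [Field E] [Algebra ℂ E] :
    PowerSeries E →ₐ[ℂ] PowerSeries E where
  toRingHom := PowerSeries.rescale (-1 : E)
  commutes' c := by
    rw [PowerSeries.algebraMap_apply]
    show PowerSeries.rescale (-1 : E) (PowerSeries.C (algebraMap ℂ E c)) =
      PowerSeries.C (algebraMap ℂ E c)
    ext n
    rw [PowerSeries.coeff_rescale, PowerSeries.coeff_C]
    by_cases h : n = 0
    · rw [if_pos h, h, pow_zero, one_mul]
    · rw [if_neg h, mul_zero]

theorem gala_iota_C {E : Type} [Field E] [Algebra ℂ E] (c : E) :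
    gala_iota E (PowerSeries.C c) = PowerSeries.C c := by
  show PowerSeries.rescale (-1 : E) (PowerSeries.C c) = PowerSeries.C c
  ext n
  rw [PowerSeries.coeff_rescale, PowerSeries.coeff_C]
  by_cases h : n = 0
  · rw [if_pos h, h, pow_zero, one_mul]
  · rw [if_neg h, mul_zero]

theorem gala_iota_X {E : Type} [Field E] [Algebra ℂ E] :
    gala_iota E (PowerSeries.X) = -PowerSeries.X := by
  show PowerSeries.rescale (-1 : E) PowerSeries.X = -PowerSeries.X
  rw [PowerSeries.rescale_X, map_neg, map_one, neg_mul, one_mul]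

theorem gala_iota_const {E : Type} [Field E] [Algebra ℂ E] (f : PowerSeries E) :
    PowerSeries.constantCoeff (gala_iota E f) = PowerSeries.constantCoeff f := by
  show PowerSeries.constantCoeff (PowerSeries.rescale (-1 : E) f) = PowerSeries.constantCoeff f
  rw [← PowerSeries.coeff_zero_eq_constantCoeff_apply, PowerSeries.coeff_rescale, pow_zero, one_mul,
    PowerSeries.coeff_zero_eq_constantCoeff_apply]

theorem gala_field : ∃ (E : Type) (_ : Field E) (_ : Algebra ℂ E) (_ : IsAlgClosed E) (_ : CharZero E)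
    (s : E), Transcendental ℂ s := by
  refine ⟨AlgebraicClosure (RatFunc ℂ), inferInstance, inferInstance, inferInstance, ?_,
    algebraMap (RatFunc ℂ) (AlgebraicClosure (RatFunc ℂ)) RatFunc.X, ?_⟩
  · exact charZero_of_injective_algebraMap
      (algebraMap ℂ (AlgebraicClosure (RatFunc ℂ))).injective
  · rw [transcendental_algebraMap_iff (algebraMap (RatFunc ℂ) (AlgebraicClosure (RatFunc ℂ))).injective]
    exact RatFunc.transcendental_X

/-- GALA -/
theorem st_GALA (hHEN : ST_HEN) : ST_GALA := by
  intro m hm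
  obtain ⟨E, iF, iA, iC, iZ, s, hs⟩ := gala_field
  have hs0 : s ≠ 0 := by
    intro h0
    rw [h0] at hs
    exact hs isAlgebraic_zero
  set x : PowerSeries E := PowerSeries.C s + PowerSeries.X with hx
  set y : PowerSeries E := PowerSeries.C s - PowerSeries.X with hy
  have hxy : x ≠ y := by
    intro h
    have h1 : (PowerSeries.X : PowerSeries E) + PowerSeries.X = 0 := by
      rw [hx, hy] at h
      linear_combination h
    have h2 := congrArg (PowerSeries.coeff 1) h1
    rw [map_add, PowerSeries.coeff_one_X, map_zero] at h2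
    have h3 : (2 : E) = 0 := by
      rw [← h2]
      norm_num
    exact two_ne_zero h3
  have hix : gala_iota E x = y := by
    rw [hx, map_add, gala_iota_C, gala_iota_X, hy]
    ring
  have hiy : gala_iota E y = x := by
    rw [hy, map_sub, gala_iota_C, gala_iota_X, hx]
    ring
  obtain ⟨g, hg⟩ := gala_factor m x y hxy
  have hmon2 : ((X - C x) * (X - C y) : Polynomial (PowerSeries E)).Monic :=
    (monic_X_sub_C x).mul (monic_X_sub_C y)
  have hgm : g.Monic := by
    have h1 : ((X - C x) * (X - C y) * g).Monic := by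
      rw [← hg]
      exact gala_F_monic m x y
    exact hmon2.of_mul_monic_left h1
  have hgd : g.natDegree = m := by
    have h1 := gala_F_natDegree m x y
    rw [hg, hmon2.natDegree_mul hgm, (monic_X_sub_C x).natDegree_mul (monic_X_sub_C y),
      natDegree_X_sub_C, natDegree_X_sub_C] at h1
    omega
  have hgi : g.map (gala_iota E).toRingHom = g := by
    have h1 : (gala_F m x y).map (gala_iota E).toRingHom = gala_F m x y := by
      rw [gala_F_map]
      show gala_F m (gala_iota E x) (gala_iota E y) = _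
      rw [hix, hiy, gala_F_symm]
    rw [hg, Polynomial.map_mul, Polynomial.map_mul, Polynomial.map_sub, Polynomial.map_sub, map_X,
      map_C, map_C] at h1
    have h2 : (X - C ((gala_iota E).toRingHom x)) * (X - C ((gala_iota E).toRingHom y)) =
        (X - C x) * (X - C y) := by
      show (X - C (gala_iota E x)) * (X - C (gala_iota E y)) = _
      rw [hix, hiy, mul_comm]
    rw [h2] at h1
    exact mul_left_cancel₀ hmon2.ne_zero h1
  have hcx : PowerSeries.constantCoeff x = s := by
    rw [hx, map_add, PowerSeries.constantCoeff_C, PowerSeries.constantCoeff_X, add_zero]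
  have hcy : PowerSeries.constantCoeff y = s := by
    rw [hy, map_sub, PowerSeries.constantCoeff_C, PowerSeries.constantCoeff_X, sub_zero]
  have hg0 : gala_F m s s = (X - C s) * (X - C s) * g.map (PowerSeries.constantCoeff (R := E)) := by
    have h1 := congrArg (fun p => p.map (PowerSeries.constantCoeff (R := E))) hg
    simp only [gala_F_map, Polynomial.map_mul, Polynomial.map_sub, map_X, map_C, hcx, hcy] at h1
    exact h1
  obtain ⟨a, ha, hga⟩ := gala_split m (g.map (PowerSeries.constantCoeff (R := E))) (hgm.map _)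
    (by rw [hgm.natDegree_map, hgd]) (gala_simple m s hs0 _ hg0)
  obtain ⟨b, hb, hgb⟩ := hHEN E m g a hgm ha hga
  have hbi : ∀ i, gala_iota E (b i) = b i := by
    intro i
    have h1 : g.eval (b i) = 0 := by
      rw [hgb, eval_prod]
      refine Finset.prod_eq_zero (Finset.mem_univ i) ?_
      rw [eval_sub, eval_X, eval_C, sub_self]
    have h2 : g.eval (gala_iota E (b i)) = 0 := by
      have h3 := Polynomial.eval_map_apply (f := (gala_iota E).toRingHom) (p := g) (b i)
      rw [h1, map_zero, hgi] at h3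
      exact h3
    rw [hgb, eval_prod, Finset.prod_eq_zero_iff] at h2
    obtain ⟨j, -, hj⟩ := h2
    rw [eval_sub, eval_X, eval_C, sub_eq_zero] at hj
    have h4 := congrArg PowerSeries.constantCoeff hj
    rw [gala_iota_const, hb, hb] at h4
    rw [ha h4]
    rw [← ha h4] at hj
    rw [ha h4] at hj
    exact hj
  refine ⟨PowerSeries E, inferInstance, inferInstance, inferInstance, x, y, b, gala_iota E,
    -gala_h x y (m + 1), x * y * gala_h x y m, ?_, gala_indep s hs, hix, hiy, hbi⟩
  rw [← hgb, ← hg]
  rfl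

end Pool.Agent.Helper87.VM
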